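import Pool.Agent.Zk83.AT.Fin

/-!
# `1/2`-flow-pairs: tree decompositions of adhesion three (MP_e59a69_co)

Let `G` be a bridgeless multigraph with a tree decomposition in which for every bag `B` one of the
following holds.

(a) The intersections with the neighbouring bags are contained in sets `Z 1, ..., Z s` of at most
three vertices with `|B| + ∑ max (|Z i| - 2, 0) ≤ 17`.

(b) The intersections with the neighbouring bags have at most three vertices, and some set of at
most nine vertices contains them and meets all edges (other than loops) with both ends in `B`.

Then `G` has a `1/2`-flow-pair; every permitted pair of values is taken at every edge, and all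
admissible values at a vertex with exactly three edges (loops not counted) are taken.

The numbers of vertices, of bags and of neighbouring bags, the degrees and the edge cuts are
arbitrary, and Petersen minors are allowed.  Special cases: tree decompositions of adhesion at most
three with bags of at most nine vertices; the graphs obtained from graphs with at most `17 - s`
vertices by clique sums of order at most three at `s` triples and any number of pairs; the graphs
obtained by clique sums of order at most three from graphs with vertex cover number at most nine, if
the cliques are contained in the vertex covers.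

Proof.  Consider flows with values in the symmetric set of the permitted pairs.  Let `M` be a
bridgeless graph of the class without the asserted property such that all smaller bridgeless graphs
which are obtained by contraction of connected sets and deletion of edges have it.  Then `M` is
internally 4-connected (`AT/Sep3.lean`): it has no vertex cut with at most two vertices, and a vertex
cut with three vertices separates only one vertex.  For let `(F, F')` be a separation of `M` with a
set `Z` of two or three common vertices such that each side has a connected subgraph attached to all
vertices of `Z` and is not a star.  The minor in which `F'` is replaced by a star has the property;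
hence every zero-sum choice of permitted values on `Z` is the boundary of a flow on `F`, since the
values at the centre of the star are prescribed, and the values at a vertex or edge of `F` extend.
The flows on the two sides are glued.  The edges of the tree are directed to the larger side; at a
sink, `M` has at most 17 vertices or a vertex cover with at most nine vertices (`AT/Dec.lean`), so
`M` has a nowhere-zero 4-flow or ten classes of vertices form a Petersen graph (starting library,
`TH362.TF.main16`, `R890.FF.cover9`).  In the first case `M` has the property (starting library
`TH499/NF`, Hoffman's theorem; for the values at an edge a digon is inserted in this edge, and the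
values at the new vertex of degree three are prescribed).  In the second case `M` is a Petersen graph
(starting library, `R140.PK`), which has the property.
-/

set_option autoImplicit false

namespace Pool.Agent.Results.MP_e59a69_co.AdhesionThree

open Finset Pool.Agent.H160R2.HF

variable {V E : Type}

/-- The pair of values `(a, b)` is permitted at an edge by the definition of a `1/2`-flow-pair. -/
def Permitted (a b : ℤ) : Prop := |a| ≤ 1 ∧ |b| ≤ 3 ∧ (a = 0 → 2 ≤ |b|)

/-- The values `α e, β e` at the edges `e` of `w` (loops not counted) are admissible: they are
permitted, and both sums of the outgoing values are zero. -/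
def Admissible [Fintype V] [Fintype E] [DecidableEq V] [DecidableEq E]
    (G : OrGraph V E) (w : V) (α β : E → ℤ) : Prop :=
  ∑ e ∈ G.cut {w}, (if G.t e = w then α e else - α e) = 0 ∧
  ∑ e ∈ G.cut {w}, (if G.t e = w then β e else - β e) = 0 ∧
  ∀ e ∈ G.cut {w}, Permitted (α e) (β e)

/-- `G` has a `1/2`-flow-pair; at every edge every permitted pair of values is taken by some
`1/2`-flow-pair; at every vertex with exactly three edges (loops not counted) all admissible values
are taken by some `1/2`-flow-pair. -/
def Flexible [Fintype V] [Fintype E] [DecidableEq V] [DecidableEq E] (G : OrGraph V E) : Prop :=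
  (∃ φ₂ φ₄ : E → ℤ, G.IsHalfFlowPair φ₂ φ₄) ∧
  (∀ e a b, Permitted a b →
    ∃ φ₂ φ₄ : E → ℤ, G.IsHalfFlowPair φ₂ φ₄ ∧ φ₂ e = a ∧ φ₄ e = b) ∧
  ∀ w, (G.cut {w}).card = 3 → ∀ α β : E → ℤ, Admissible G w α β →
    ∃ φ₂ φ₄ : E → ℤ, G.IsHalfFlowPair φ₂ φ₄ ∧ ∀ e ∈ G.cut {w}, φ₂ e = α e ∧ φ₄ e = β e

/-- A tree decomposition of the graph, with bags `bag i` for the nodes `i` of the tree `T`. -/
def IsTreeDecomposition {ι : Type} (G : OrGraph V E) (T : SimpleGraph ι)
    (bag : ι → Finset V) : Prop :=
  T.IsTree ∧ (∀ v, ∃ i, v ∈ bag i) ∧ (∀ e, ∃ i, G.t e ∈ bag i ∧ G.h e ∈ bag i) ∧
    ∀ (i j : ι) (p : T.Walk i j), p.IsPath → ∀ k ∈ p.support, ∀ v, v ∈ bag i → v ∈ bag j →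
      v ∈ bag k

/-- The bag of the node `b` is small: the intersections with the bags of the neighbouring nodes are
contained in sets `Z 0, ..., Z (s - 1)` of at most three vertices, and
`|bag b| + ∑ max (|Z i| - 2, 0) ≤ 17` (truncated subtraction). -/
def SmallBag [DecidableEq V] {ι : Type} (T : SimpleGraph ι) (bag : ι → Finset V) (b : ι) : Prop :=
  ∃ (s : ℕ) (Z : Fin s → Finset V), (∀ i, (Z i).card ≤ 3) ∧
    (∀ w, T.Adj b w → ∃ i, bag b ∩ bag w ⊆ Z i) ∧ (bag b).card + ∑ i, ((Z i).card - 2) ≤ 17

/-- The bag of the node `b` is covered: some set `X` of at most nine vertices contains the
intersections with the bags of the neighbouring nodes, which have at most three vertices each, and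
meets all edges (other than loops) with both ends in the bag. -/
def CoveredBag [DecidableEq V] {ι : Type} (G : OrGraph V E) (T : SimpleGraph ι)
    (bag : ι → Finset V) (b : ι) : Prop :=
  ∃ X : Finset V, X.card ≤ 9 ∧ (∀ w, T.Adj b w → (bag b ∩ bag w).card ≤ 3 ∧ bag b ∩ bag w ⊆ X) ∧
    ∀ e, G.t e ≠ G.h e → G.t e ∈ bag b → G.h e ∈ bag b → G.t e ∈ X ∨ G.h e ∈ X

/-- Bridgeless multigraphs which have a tree decomposition with small and covered bags have a
`1/2`-flow-pair, with arbitrary permitted values at an edge and arbitrary admissible values at a
vertex with three edges. -/
theorem result :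
    ∀ (V E ι : Type) [Fintype V] [DecidableEq V] [Fintype E] [DecidableEq E] [Fintype ι]
      (G : OrGraph V E) (T : SimpleGraph ι) (bag : ι → Finset V),
      G.Bridgeless → IsTreeDecomposition G T bag →
      (∀ b, SmallBag T bag b ∨ CoveredBag G T bag b) → Flexible G := by
  intro V E ι _ _ _ _ _ G T bag hB hT hb
  exact Zk83.AT.pr_iff.mp (Zk83.AT.ad_pr
    (Zk83.AT.hasAD_of_tree hT.1 bag hT.2.2.1 hT.2.2.2 hb) (Zk83.AT.br_of hB))

end Pool.Agent.Results.MP_e59a69_co.AdhesionThree
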