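import Pool.Agent.R129.Hfp.Ears
import Pool.Agent.Zk57.Hf8

/-!
# `1/2`-flow-pairs: graphs without induced paths with eight vertices (MP_e59a69_co)

Let `G` be a bridgeless multigraph which has no induced path with eight vertices.  Then `G` has a
`1/2`-flow-pair, and at every vertex with exactly three edges (loops not counted) every admissible
choice of the values extends to a `1/2`-flow-pair of `G`.  The order, the degrees and the connectivity
are arbitrary; in particular there may be edge cuts with two or three edges.

Proof.  Suppose that the statement fails, and contract disjoint connected vertex sets of `G` as long as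
it fails.  The result `H` has no induced path with eight vertices either: such a path gives eight
disjoint connected vertex sets of `G`, and a shortest path in their union from the first one to the
last one meets all of them and is induced.  So, by the files `R140/PK` of the starting library (a
certificate of a search, checked by the kernel), `H` has a nowhere-zero 4-flow or a quotient which is a
Petersen graph.  In the first case every admissible choice of the values at a vertex of degree three
extends (starting library `TH499/NF`).  In the second case `H` has a component which is a Petersen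
graph, by sums along cuts with three edges, and nine of its ten vertices can be contracted; the values
at a vertex of the Petersen graph are arbitrary (starting library `H179R3/HF`, `N393/C13`).
-/

set_option autoImplicit false

namespace Pool.Agent.Results.MP_e59a69_co.InducedPathEight

open Finset Pool.Agent.H160R2.HF Pool.Agent.R129.Hfp

/-- `G` has an induced path with eight vertices: there are eight different vertices `p 0, ..., p 7`
such that `p i` and `p j` are joined by an edge if and only if `i` and `j` differ by one. -/
def HasInducedPathEight {V E : Type} (G : OrGraph V E) : Prop :=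
  ∃ p : Fin 8 → V, Function.Injective p ∧ ∀ i j : Fin 8, i < j →
    ((∃ e, (G.t e = p i ∧ G.h e = p j) ∨ (G.t e = p j ∧ G.h e = p i)) ↔ i.val + 1 = j.val)

/-- `α e, β e` are admissible values of a `1/2`-flow-pair at the edges `e` of `w` (without loops):
the two sums of the outgoing values are zero, `|α e| ≤ 1`, `|β e| ≤ 3`, and `|β e| ≥ 2` if
`α e = 0`. -/
def Admissible {V E : Type} [Fintype V] [Fintype E] [DecidableEq V] [DecidableEq E]
    (G : OrGraph V E) (w : V) (α β : E → ℤ) : Prop :=
  ∑ e ∈ G.cut {w}, (if G.t e = w then α e else - α e) = 0 ∧
  ∑ e ∈ G.cut {w}, (if G.t e = w then β e else - β e) = 0 ∧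
  ∀ e ∈ G.cut {w}, |α e| ≤ 1 ∧ |β e| ≤ 3 ∧ (α e = 0 → 2 ≤ |β e|)

/-- Let `G` be a bridgeless multigraph which has no induced path with eight vertices.  Then `G` has a
`1/2`-flow-pair, and all admissible values at a vertex with three edges extend. -/
theorem result (V E : Type) [Fintype V] [DecidableEq V] [Fintype E] [DecidableEq E]
    (G : OrGraph V E) (hB : G.Bridgeless) (h8 : ¬ HasInducedPathEight G) :
    (∃ φ₂ φ₄ : E → ℤ, G.IsHalfFlowPair φ₂ φ₄) ∧
      ∀ w, (G.cut {w}).card = 3 → ∀ α β : E → ℤ, Admissible G w α β →
        ∃ φ₂ φ₄ : E → ℤ, G.IsHalfFlowPair φ₂ φ₄ ∧ ∀ e ∈ G.cut {w}, φ₂ e = α e ∧ φ₄ e = β e := by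
  obtain ⟨h1, h2⟩ := Pool.Agent.Zk57.Hf8.hp8 G.t G.h (n1_of (G.cut_card_ne_one hB)) h8
  exact ⟨h1, fun w hw α β ⟨a, b, c⟩ => h2 w hw α β a b c⟩

end Pool.Agent.Results.MP_e59a69_co.InducedPathEight
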