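import Pool.Agent.R129.Hfp.Ears
import Pool.Agent.R129.Hfp.Main
import Pool.Agent.R769.MN.Mat

/-!
# `1/2`-flow-pairs: graphs with matching number at most eight (MP_e59a69_co)

Let `G` be a bridgeless multigraph in which every matching has at most eight edges.  Then `G` has a
`1/2`-flow-pair, and at every vertex with exactly three edges (loops not counted) every admissible
choice of the values extends to a `1/2`-flow-pair of `G`.  The order and the degrees are arbitrary;
in particular there may be edge cuts with two or three edges.  (The Blanusa snarks have matching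
number nine.)

Proof.  Every graph obtained from `G` by identification of vertices has matching number at most eight.
By the files `R769/MN` of the starting library (Tutte–Berge formula, and a count in a minimal quotient
without 4-flow) it has a nowhere-zero 4-flow, or ten classes of vertices form a Petersen graph.  In the
first case every admissible choice of the values at a vertex of degree three extends (`TH499/NF`).  In
the second case three edges leave each class, induction is applied to the ten graphs obtained by
identification of the vertices outside a class, and the flows are glued (`R129/Hfp`, `H179R3/HF`).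
-/

set_option autoImplicit false

namespace Pool.Agent.Results.MP_e59a69_co.MatchingNumberEight

open Finset Pool.Agent.H160R2.HF Pool.Agent.R129.Hfp

/-- `M` is a matching: its edges are not loops and no two of them have a common end. -/
def IsMatching {V E : Type} (G : OrGraph V E) (M : Finset E) : Prop :=
  (∀ e ∈ M, G.t e ≠ G.h e) ∧ ∀ e ∈ M, ∀ e' ∈ M, e ≠ e' →
    G.t e ≠ G.t e' ∧ G.t e ≠ G.h e' ∧ G.h e ≠ G.t e' ∧ G.h e ≠ G.h e'

/-- `α e, β e` are admissible values of a `1/2`-flow-pair at the edges `e` of `w` (without loops):
the two sums of the outgoing values are zero, `|α e| ≤ 1`, `|β e| ≤ 3`, and `|β e| ≥ 2` if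
`α e = 0`. -/
def Admissible {V E : Type} [Fintype V] [Fintype E] [DecidableEq V] [DecidableEq E]
    (G : OrGraph V E) (w : V) (α β : E → ℤ) : Prop :=
  ∑ e ∈ G.cut {w}, (if G.t e = w then α e else - α e) = 0 ∧
  ∑ e ∈ G.cut {w}, (if G.t e = w then β e else - β e) = 0 ∧
  ∀ e ∈ G.cut {w}, |α e| ≤ 1 ∧ |β e| ≤ 3 ∧ (α e = 0 → 2 ≤ |β e|)

/-- Let `G` be a bridgeless multigraph in which every matching has at most eight edges.  Then `G` has
a `1/2`-flow-pair, and all admissible values at a vertex with three edges extend. -/
theorem result (V E : Type) [Fintype V] [DecidableEq V] [Fintype E] [DecidableEq E]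
    (G : OrGraph V E) (hB : G.Bridgeless) (h8 : ∀ M : Finset E, IsMatching G M → M.card ≤ 8) :
    (∃ φ₂ φ₄ : E → ℤ, G.IsHalfFlowPair φ₂ φ₄) ∧
      ∀ w, (G.cut {w}).card = 3 → ∀ α β : E → ℤ, Admissible G w α β →
        ∃ φ₂ φ₄ : E → ℤ, G.IsHalfFlowPair φ₂ φ₄ ∧ ∀ e ∈ G.cut {w}, φ₂ e = α e ∧ φ₄ e = β e := by
  obtain ⟨h1, h2⟩ := main
    (fun G' => ∀ M : Finset E, Pool.Agent.R769.MN.IsMat G'.t G'.h M → M.card ≤ 8)
    (fun G' ρ h M hM => h M (Pool.Agent.R769.MN.IsMat.of_map ρ hM))
    (fun G' h hb => by
      rcases Pool.Agent.R769.MN.match8 G'.t G'.h univ (n1_of hb) (fun M _ hM => h M hM) with h | h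
      · exact Or.inl (nzK_of h)
      · exact Or.inr h) _ G rfl h8 (G.cut_card_ne_one hB)
  exact ⟨h1, fun w hw α β ⟨a, b, c⟩ => h2 w hw α β a b c⟩

end Pool.Agent.Results.MP_e59a69_co.MatchingNumberEight
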